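import Pool.Agent.Q256.MP.Stm

set_option autoImplicit false

/-!
# Project MP (helper256), job LINH: heights under integral linear maps
-/

open Height NumberField

noncomputable section

namespace Pool.Agent.Q210.MP

open Pool.Agent.Q256.MP

theorem abv_int_le {K : Type} [Field K] (v : AbsoluteValue K ℝ) (a : ℤ) (R : ℕ) (h : |a| ≤ (R : ℤ)) :
    v (a : K) ≤ R := by
  have h1 : v ((a.natAbs : ℕ) : K) ≤ (a.natAbs : ℝ) := by
    exact v.apply_nat_le_self a.natAbs
  have h2 : v (a : K) = v ((a.natAbs : ℕ) : K) := by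
    rcases Int.natAbs_eq a with h | h
    · conv_lhs => rw [h]
      rw [Int.cast_natCast]
    · conv_lhs => rw [h]
      rw [Int.cast_neg, Int.cast_natCast, AbsoluteValue.map_neg]
  rw [h2]
  refine h1.trans ?_
  have h3 : (a.natAbs : ℤ) ≤ R := by rw [Int.natCast_natAbs]; exact h
  exact_mod_cast h3

open AdmissibleAbsValues in
/-- the height of an integral vector -/
theorem mulHeight_int_le {K : Type} [Field K] [NumberField K] {ι : Type} [Fintype ι] (A : ι → ℤ)
    (R : ℕ) (hR : 1 ≤ R) (h : ∀ i, |A i| ≤ (R : ℤ)) :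
    mulHeight (fun i => (A i : K)) ≤ (R : ℝ) ^ (Module.finrank ℚ K) := by
  have hR1 : (1 : ℝ) ≤ (R : ℝ) ^ (Module.finrank ℚ K) := one_le_pow₀ (by exact_mod_cast hR)
  by_cases hA : (fun i => (A i : K)) = 0
  · rw [hA, mulHeight_zero]
    exact hR1
  have hne : Nonempty ι := by
    by_contra hcon
    rw [not_nonempty_iff] at hcon
    exact hA (Subsingleton.elim _ _)
  rw [Height.mulHeight_eq hA, ← totalWeight_eq_finrank]
  have e1 : ((archAbsVal (K := K)).map fun v ↦ ⨆ i, v (A i : K)).prod ≤ (R : ℝ) ^ totalWeight K := by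
    rw [← Multiset.prod_replicate, totalWeight, ← Multiset.map_const']
    refine Multiset.prod_map_le_prod_map₀ _ _ (fun v _ ↦ Real.iSup_nonneg_of_nonnegHomClass v _) fun v _ ↦ ?_
    exact ciSup_le fun i => abv_int_le v (A i) R (h i)
  have e2 : ∏ᶠ v : nonarchAbsVal (K := K), ⨆ i, v.val (A i : K) ≤ 1 := by
    rw [← finprod_one (α := nonarchAbsVal (K := K))]
    refine finprod_le_finprod (by fun_prop (disch := assumption))
      (fun v ↦ Real.iSup_nonneg_of_nonnegHomClass v.val _) (by fun_prop) fun v ↦ ?_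
    exact ciSup_le fun i => (isNonarchimedean _ v.prop).apply_intCast_le_one
  have e3 : 0 ≤ ∏ᶠ v : nonarchAbsVal (K := K), ⨆ i, v.val (A i : K) :=
    finprod_nonneg fun v ↦ Real.iSup_nonneg_of_nonnegHomClass v.val _
  calc _ ≤ (R : ℝ) ^ totalWeight K * 1 := mul_le_mul e1 e2 e3 (by positivity)
    _ = _ := mul_one _

/-- **LINH** -/
theorem linh : S_linh := by
  intro n D R
  -- a bound for the entries of the adjugates
  have hfin : {A : Matrix (Fin n) (Fin n) ℤ | ∀ i j, |A i j| ≤ (R : ℤ)}.Finite := by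
    have hf : (Set.pi (Set.univ : Set (Fin n)) (fun _ => Set.pi (Set.univ : Set (Fin n))
        (fun _ => Set.Icc (-(R : ℤ)) R))).Finite :=
      Set.Finite.pi fun _ => Set.Finite.pi fun _ => Set.finite_Icc _ _
    exact hf.subset fun A hA i _ j _ => abs_le.1 (hA i j)
  obtain ⟨M, hM⟩ : ∃ M : ℕ, ∀ A : Matrix (Fin n) (Fin n) ℤ, (∀ i j, |A i j| ≤ (R : ℤ)) →
      ∀ i j, (A.adjugate i j).natAbs ≤ M := by
    obtain ⟨M, hM⟩ := (hfin.image (fun A => ∑ i, ∑ j, (A.adjugate i j).natAbs)).bddAbove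
    refine ⟨M, fun A hA i j => ?_⟩
    have h1 : ∑ i, ∑ j, (A.adjugate i j).natAbs ≤ M := hM ⟨A, hA, rfl⟩
    have h2 : (A.adjugate i j).natAbs ≤ ∑ j, (A.adjugate i j).natAbs :=
      Finset.single_le_sum (f := fun j => (A.adjugate i j).natAbs) (fun _ _ => Nat.zero_le _) (Finset.mem_univ j)
    have h3 : ∑ j, (A.adjugate i j).natAbs ≤ ∑ i, ∑ j, (A.adjugate i j).natAbs :=
      Finset.single_le_sum (f := fun i => ∑ j, (A.adjugate i j).natAbs) (fun _ _ => Nat.zero_le _) (Finset.mem_univ i)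
    omega
  obtain ⟨C, hC⟩ : ∃ C : ℝ, C = ((n + 1 : ℕ) : ℝ) ^ D * ((M + 1 : ℕ) : ℝ) ^ D := ⟨_, rfl⟩
  have hn1 : (1 : ℝ) ≤ ((n + 1 : ℕ) : ℝ) := by exact_mod_cast Nat.le_add_left 1 n
  have hM1 : (1 : ℝ) ≤ ((M + 1 : ℕ) : ℝ) := by exact_mod_cast Nat.le_add_left 1 M
  have hC1 : 1 ≤ C := by
    rw [hC]
    exact one_le_mul_of_one_le_of_one_le (one_le_pow₀ hn1) (one_le_pow₀ hM1)
  refine ⟨C, by linarith, fun K _ _ hK A hA hdet P => ?_⟩
  by_cases hP : P = 0
  · subst hP
    have : (fun i => ∑ j, (A i j : K) * (0 : Fin n → K) j) = 0 := by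
      funext i
      simp
    rw [this, mulHeight_zero]
    linarith
  have hne : Nonempty (Fin n) := by
    by_contra hcon
    rw [not_nonempty_iff] at hcon
    exact hP (Subsingleton.elim _ _)
  have hdK : (A.det : K) ≠ 0 := by exact_mod_cast hdet
  have key : (A.det : K) • P = fun i => ∑ j, (A.adjugate i j : K) * (∑ k, (A j k : K) * P k) := by
    have h1 : (A.adjugate * A) = A.det • (1 : Matrix (Fin n) (Fin n) ℤ) := Matrix.adjugate_mul A
    funext i
    have h2 : ∀ k, ∑ j, (A.adjugate i j : K) * (A j k : K) = if i = k then (A.det : K) else 0 := by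
      intro k
      have h3 := congrFun (congrFun h1 i) k
      rw [Matrix.mul_apply, Matrix.smul_apply, Matrix.one_apply] at h3
      have h4 := congrArg (Int.cast : ℤ → K) h3
      push_cast at h4
      rw [h4]
      split_ifs with h5
      · simp
      · simp
    have h6 : ∑ j, (A.adjugate i j : K) * (∑ k, (A j k : K) * P k) =
        ∑ k, (∑ j, (A.adjugate i j : K) * (A j k : K)) * P k := by
      simp only [Finset.mul_sum, Finset.sum_mul]
      rw [Finset.sum_comm]
      refine Finset.sum_congr rfl fun k _ => Finset.sum_congr rfl fun j _ => ?_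
      ring
    rw [h6]
    simp only [h2]
    simp
  have h7 : mulHeight P = mulHeight (fun i => ∑ j, (A.adjugate i j : K) * (∑ k, (A j k : K) * P k)) := by
    rw [← key, mulHeight_smul_eq_mulHeight P hdK]
  rw [h7]
  have h8 := mulHeight_linearMap_apply_le (K := K) (fun ij : Fin n × Fin n => (A.adjugate ij.1 ij.2 : K))
    (fun j => ∑ k, (A j k : K) * P k)
  have h9 : mulHeight (fun ij : Fin n × Fin n => (A.adjugate ij.1 ij.2 : K)) ≤
      ((M + 1 : ℕ) : ℝ) ^ (Module.finrank ℚ K) := by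
    refine mulHeight_int_le (fun ij : Fin n × Fin n => A.adjugate ij.1 ij.2) (M + 1) (by omega) fun ij => ?_
    have := hM A hA ij.1 ij.2
    rw [Int.abs_eq_natAbs]
    omega
  refine h8.trans ?_
  rw [totalWeight_eq_finrank, Nat.card_eq_fintype_card, Fintype.card_fin]
  have h10 : ((n : ℕ) : ℝ) ^ (Module.finrank ℚ K) ≤ ((n + 1 : ℕ) : ℝ) ^ D := by
    calc ((n : ℕ) : ℝ) ^ (Module.finrank ℚ K) ≤ ((n + 1 : ℕ) : ℝ) ^ (Module.finrank ℚ K) := by
          gcongr
          omega
      _ ≤ ((n + 1 : ℕ) : ℝ) ^ D := pow_le_pow_right₀ hn1 hK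
  have h11 : ((M + 1 : ℕ) : ℝ) ^ (Module.finrank ℚ K) ≤ ((M + 1 : ℕ) : ℝ) ^ D := pow_le_pow_right₀ hM1 hK
  have h12 : 0 ≤ mulHeight (fun j => ∑ k, (A j k : K) * P k) := (mulHeight_pos _).le
  rw [hC]
  refine mul_le_mul_of_nonneg_right ?_ h12
  exact mul_le_mul h10 (h9.trans h11) (mulHeight_pos _).le (by positivity)

end Pool.Agent.Q210.MP
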