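import Pool.Agent.Q256.MP.Stm
import Pool.Agent.W135.GE.Prod

set_option autoImplicit false

/-!
# Project MP (helper256), job PROJ: a projection that separates the points and keeps the height
-/

open Height NumberField

noncomputable section

namespace Pool.Agent.Q210.MP

open Pool.Agent.Q256.MP


theorem badS_fin (N : ℕ) (y : Fin (N + 1) → ℂ) (hy : y ≠ 0) :
    ∃ T : Finset ℕ, T.card ≤ N ∧ ∀ t, t ∉ T → ∑ j : Fin (N + 1), ((t : ℂ) ^ (j : ℕ)) * y j ≠ 0 := by
  obtain ⟨p, hp⟩ : ∃ p : Polynomial ℂ, p = ∑ j : Fin (N + 1), Polynomial.C (y j) * Polynomial.X ^ (j : ℕ) := ⟨_, rfl⟩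
  have hcoef : ∀ i : Fin (N + 1), p.coeff i = y i := by
    intro i
    rw [hp, Polynomial.finsetSum_coeff, Finset.sum_eq_single i]
    · rw [Polynomial.coeff_C_mul_X_pow, if_pos rfl]
    · intro j _ hj
      rw [Polynomial.coeff_C_mul_X_pow, if_neg]
      intro h
      exact hj (Fin.ext h.symm)
    · intro h
      exact absurd (Finset.mem_univ i) h
  have hp0 : p ≠ 0 := by
    intro h
    apply hy
    funext i
    rw [← hcoef i, h, Polynomial.coeff_zero]
    rfl
  have hdeg : p.natDegree ≤ N := by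
    rw [hp]
    refine Polynomial.natDegree_sum_le_of_forall_le _ _ fun j _ => ?_
    refine (Polynomial.natDegree_C_mul_X_pow_le _ _).trans ?_
    omega
  have heval : ∀ t : ℕ, p.eval (t : ℂ) = ∑ j : Fin (N + 1), ((t : ℂ) ^ (j : ℕ)) * y j := by
    intro t
    rw [hp, Polynomial.eval_finsetSum]
    refine Finset.sum_congr rfl fun j _ => ?_
    rw [Polynomial.eval_mul, Polynomial.eval_C, Polynomial.eval_pow, Polynomial.eval_X, mul_comm]
  have hinj : Function.Injective (fun t : ℕ => (t : ℂ)) := Nat.cast_injective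
  refine ⟨p.roots.toFinset.preimage (fun t : ℕ => (t : ℂ)) hinj.injOn, ?_, ?_⟩
  · have h1 : (p.roots.toFinset.preimage (fun t : ℕ => (t : ℂ)) hinj.injOn).card ≤ p.roots.toFinset.card :=
      Finset.card_le_card_of_injOn (fun t : ℕ => (t : ℂ)) (fun t ht => by
        rw [Finset.mem_coe, Finset.mem_preimage] at ht
        exact ht) hinj.injOn
    have h2 : p.roots.toFinset.card ≤ p.natDegree := (Multiset.toFinset_card_le _).trans (Polynomial.card_roots' p)
    omega
  · intro t ht h0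
    apply ht
    rw [Finset.mem_preimage, Multiset.mem_toFinset, Polynomial.mem_roots hp0, Polynomial.IsRoot, heval, h0]

/-- finitely many nonzero vectors -/
theorem badS_fam (N : ℕ) {ι : Type} [Fintype ι] (w : ι → Fin (N + 1) → ℂ) (hw : ∀ i, w i ≠ 0) :
    ∃ T : Finset ℕ, T.card ≤ Fintype.card ι * N ∧
      ∀ t, t ∉ T → ∀ i, ∑ j : Fin (N + 1), ((t : ℂ) ^ (j : ℕ)) * w i j ≠ 0 := by
  classical
  choose T hT1 hT2 using fun i => badS_fin N (w i) (hw i)
  refine ⟨Finset.univ.biUnion T, ?_, ?_⟩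
  · refine Finset.card_biUnion_le.trans ?_
    refine (Finset.sum_le_card_nsmul _ _ N fun i _ => hT1 i).trans ?_
    simp
  · intro t ht i
    apply hT2 i t
    intro h
    exact ht (Finset.mem_biUnion.2 ⟨i, Finset.mem_univ i, h⟩)

/-- **PROJ** -/
theorem proj (h : S_linh) : S_proj := by
  intro N D m
  obtain ⟨T, hT⟩ : ∃ T : ℕ, T = N * m ^ 2 + N + m * N := ⟨_, rfl⟩
  obtain ⟨R, hR⟩ : ∃ R : ℕ, R = (T + 1) ^ N := ⟨_, rfl⟩
  obtain ⟨C, hC, hlin⟩ := h (N + 1) D R
  have hpow : ∀ (t : ℕ) (j : Fin (N + 1)), t ≤ T → |((t : ℤ) ^ (j : ℕ))| ≤ (R : ℤ) := by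
    intro t j ht
    rw [abs_of_nonneg (by positivity), hR]
    push_cast
    calc (t : ℤ) ^ (j : ℕ) ≤ ((T : ℤ) + 1) ^ (j : ℕ) := by
          gcongr
          have : (t : ℤ) ≤ T := by exact_mod_cast ht
          linarith
      _ ≤ ((T : ℤ) + 1) ^ N := pow_le_pow_right₀ (by linarith [Int.natCast_nonneg T]) (by omega)
  refine ⟨R, C, hC, fun z hz i₀ K _ _ φ P hK hP hzP => ?_⟩
  -- the denominator
  obtain ⟨T1, hT1, hT1'⟩ := badS_fam N z hz.1
  obtain ⟨s, hs, hs'⟩ : ∃ s, s ∈ Finset.range (m * N + 1) ∧ s ∉ T1 := by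
    by_contra hcon
    push Not at hcon
    have : (Finset.range (m * N + 1)).card ≤ T1.card := Finset.card_le_card fun s hs => hcon s hs
    rw [Finset.card_range] at this
    rw [Fintype.card_fin] at hT1
    omega
  have hsT : s ≤ T := by
    rw [Finset.mem_range] at hs
    rw [hT]
    omega
  obtain ⟨V, hV⟩ : ∃ V : Fin m → ℂ, ∀ i, V i = ∑ j : Fin (N + 1), ((s : ℂ) ^ (j : ℕ)) * z i j := ⟨_, fun i => rfl⟩
  have hV0 : ∀ i, V i ≠ 0 := by
    intro i
    rw [hV]
    exact hT1' s hs' i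
  -- the numerators
  obtain ⟨T2, hT2, hT2'⟩ := badS_fam N (ι := {p : Fin m × Fin m // p.1 ≠ p.2})
    (fun p j => z p.1.1 j / V p.1.1 - z p.1.2 j / V p.1.2) (by
      intro p h0
      apply hz.2 p.1.1 p.1.2 p.2 (V p.1.1 / V p.1.2)
      funext j
      have h1 := congrFun h0 j
      simp only [Pi.zero_apply] at h1
      rw [Pi.smul_apply, smul_eq_mul]
      have h2 := hV0 p.1.1
      have h3 := hV0 p.1.2
      field_simp at h1 ⊢
      linear_combination h1)
  have hcard2 : T2.card ≤ N * m ^ 2 := by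
    refine hT2.trans ?_
    have : Fintype.card {p : Fin m × Fin m // p.1 ≠ p.2} ≤ m ^ 2 := by
      refine (Fintype.card_subtype_le _).trans ?_
      rw [Fintype.card_prod, Fintype.card_fin, sq]
    calc _ ≤ m ^ 2 * N := Nat.mul_le_mul_right _ this
      _ = N * m ^ 2 := Nat.mul_comm _ _
  have hcard3 : N + 1 ≤ ((Finset.range (N * m ^ 2 + N + 1)) \ T2).card := by
    have := Finset.le_card_sdiff T2 (Finset.range (N * m ^ 2 + N + 1))
    rw [Finset.card_range] at this
    omega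
  obtain ⟨t, ht, htinj⟩ : ∃ t : Fin (N + 1) → ℕ, (∀ k, t k ∈ (Finset.range (N * m ^ 2 + N + 1)) \ T2) ∧
      Function.Injective t := by
    obtain ⟨S, hS, hS2⟩ := Finset.exists_subset_card_eq hcard3
    refine ⟨fun k => S.orderEmbOfFin hS2 k, fun k => hS (Finset.orderEmbOfFin_mem S hS2 k), ?_⟩
    intro a b hab
    exact (S.orderEmbOfFin hS2).injective hab
  have htT : ∀ k, t k ≤ T := by
    intro k
    have := ht k
    rw [Finset.mem_sdiff, Finset.mem_range] at this
    rw [hT]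
    omega
  have ht2 : ∀ k, t k ∉ T2 := fun k => (Finset.mem_sdiff.1 (ht k)).2
  -- the Vandermonde matrix
  have hdet : (Matrix.vandermonde (fun k => (t k : ℤ))).det ≠ 0 := by
    rw [Matrix.det_vandermonde_ne_zero_iff]
    intro a b hab
    apply htinj
    simpa using hab
  have h1 := hlin K hK (Matrix.vandermonde (fun k => (t k : ℤ))) (fun k j => by
    rw [Matrix.vandermonde_apply]
    exact hpow (t k) j (htT k)) hdet P
  have hVP : (∑ j : Fin (N + 1), (((s : ℤ) ^ (j : ℕ) : ℤ) : K) * P j) ≠ 0 := by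
    intro h0
    apply hV0 i₀
    have h2 := congrArg φ h0
    rw [map_sum, map_zero] at h2
    rw [hV, hzP]
    rw [← h2]
    refine Finset.sum_congr rfl fun j _ => ?_
    rw [map_mul, map_intCast]
    push_cast
    rfl
  obtain ⟨Q, hQ⟩ : ∃ Q : K, Q = ∑ j : Fin (N + 1), (((s : ℤ) ^ (j : ℕ) : ℤ) : K) * P j := ⟨_, rfl⟩
  rw [← hQ] at hVP
  obtain ⟨y, hy⟩ : ∃ y : Fin (N + 1) → K, y = fun k =>
    ∑ j, ((Matrix.vandermonde (fun k => (t k : ℤ))) k j : K) * P j := ⟨_, rfl⟩
  rw [← hy] at h1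
  have h3 : mulHeight y ≤ ∏ k : Fin (N + 1), mulHeight₁ (y k / Q) := by
    have h4 := mulHeight_comp_le (Fin.succ : Fin (N + 1) → Fin (N + 2)) (Fin.cons Q y : Fin (N + 2) → K)
    have h5 : (Fin.cons Q y : Fin (N + 2) → K) ∘ (Fin.succ : Fin (N + 1) → Fin (N + 2)) = y := by
      funext k
      simp
    rw [h5] at h4
    refine h4.trans ?_
    have h6 := Pool.Agent.W135.GE.prod K (N + 2) (Fin.cons Q y : Fin (N + 2) → K) 0 (by simpa using hVP)
    refine h6.trans (le_of_eq ?_)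
    have h7 : (Finset.univ.erase (0 : Fin (N + 2))) = Finset.univ.map ⟨Fin.succ, Fin.succ_injective _⟩ := by
      ext i
      simp only [Finset.mem_erase, Finset.mem_univ, and_true, Finset.mem_map, Function.Embedding.coeFn_mk, true_and]
      constructor
      · intro hi
        exact ⟨i.pred hi, Fin.succ_pred i hi⟩
      · rintro ⟨k, rfl⟩
        exact Fin.succ_ne_zero k
    rw [h7, Finset.prod_map]
    simp
  obtain ⟨k, hk⟩ := Finite.exists_max (fun k : Fin (N + 1) => mulHeight₁ (y k / Q))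
  have h8 : ∏ k : Fin (N + 1), mulHeight₁ (y k / Q) ≤ mulHeight₁ (y k / Q) ^ (N + 1) := by
    refine (Finset.prod_le_prod (fun i _ => mulHeight₁_nonneg _) fun i _ => hk i).trans ?_
    rw [Finset.prod_const, Finset.card_univ, Fintype.card_fin]
  refine ⟨fun j => (t k : ℤ) ^ (j : ℕ), fun j => (s : ℤ) ^ (j : ℕ), fun j => hpow (t k) j (htT k),
    fun j => hpow s j hsT, ?_, ?_, ?_⟩
  · intro i
    have := hV0 i
    rw [hV] at this
    push_cast
    exact this
  · intro i l hil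
    by_contra hne
    apply hT2' (t k) (ht2 k) ⟨(i, l), hne⟩
    simp only at hil
    push_cast at hil
    rw [← hV i, ← hV l] at hil
    have h9 : ∑ j : Fin (N + 1), ((t k : ℂ) ^ (j : ℕ)) * (z i j / V i - z l j / V l) =
        (∑ j : Fin (N + 1), ((t k : ℂ) ^ (j : ℕ)) * z i j) / V i -
        (∑ j : Fin (N + 1), ((t k : ℂ) ^ (j : ℕ)) * z l j) / V l := by
      rw [Finset.sum_div, Finset.sum_div, ← Finset.sum_sub_distrib]
      refine Finset.sum_congr rfl fun j _ => ?_
      ring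
    rw [h9, hil, sub_self]
  · have h10 : (∑ j : Fin (N + 1), (((t k : ℤ) ^ (j : ℕ) : ℤ) : K) * P j) = y k := by
      rw [hy]
      rfl
    rw [h10, ← hQ]
    refine h1.trans ?_
    exact mul_le_mul_of_nonneg_left (h3.trans h8) hC.le

end Pool.Agent.Q210.MP
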